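import Pool.Agent.H358R3.Rigid

/-!
Parity of the number of prime factors in residue classes modulo a prime, below `2 q ^ 2`.
-/

namespace Pool.Agent.H358R3

open Classical in
/-- number of prime factors of `n` (with multiplicity) which lie in `S` -/
noncomputable def om (S : Set ℕ) (n : ℕ) : ℕ := n.primeFactorsList.countP (fun p => decide (p ∈ S))

lemma om_mul (S : Set ℕ) {m n : ℕ} (hm : m ≠ 0) (hn : n ≠ 0) : om S (m * n) = om S m + om S n := by
  classical
  unfold om
  rw [(Nat.perm_primeFactorsList_mul hm hn).countP_eq, List.countP_append]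

lemma om_prime (S : Set ℕ) {p : ℕ} (hp : p.Prime) (h : p ∈ S) : om S p = 1 := by
  classical
  unfold om
  rw [Nat.primeFactorsList_prime hp]
  simp [h]

lemma om_prime' (S : Set ℕ) {p : ℕ} (hp : p.Prime) (h : p ∉ S) : om S p = 0 := by
  classical
  unfold om
  rw [Nat.primeFactorsList_prime hp]
  simp [h]

/-- the completely multiplicative sign -/
noncomputable def fs (S : Set ℕ) (n : ℕ) : ℤ := (-1) ^ om S n

lemma fs_CMS (S : Set ℕ) : CMS (fs S) where
  mul m n hm hn := by unfold fs; rw [om_mul S hm hn, pow_add]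
  pm n _ := neg_one_pow_eq_or ℤ _

lemma fs_one_iff (S : Set ℕ) (n : ℕ) : fs S n = 1 ↔ om S n % 2 = 0 := by
  unfold fs
  rw [neg_one_pow_eq_one_iff_even (by norm_num), Nat.even_iff]

/-- dichotomy for an arbitrary set of primes -/
theorem general (q : ℕ) (hq : q.Prime) (S : Set ℕ)
    (h1 : ∃ l : ℕ, l.Prime ∧ l < 2 * q ∧ l ≠ q ∧ l ∈ S)
    (h2 : ∃ l : ℕ, l.Prime ∧ l < 2 * q ∧ l ≠ q ∧ ¬ (l ∈ S ↔ ¬ IsSquare (l : ZMod q)))
    (a : ℕ) (ha : ¬ q ∣ a) (j : ℕ) (hj : j < 2) :
    ∃ N : ℕ, 0 < N ∧ N < 2 * q ^ 2 ∧ N ≡ a [MOD q] ∧ om S N % 2 = j := by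
  haveI : Fact q.Prime := ⟨hq⟩
  by_contra hno
  push Not at hno
  have hac : (a : ZMod q) ≠ 0 := by
    rw [Ne, ZMod.natCast_eq_zero_iff]; exact ha
  have hC : Const q (fs S) a (if j = 0 then -1 else 1) := by
    intro N hN0 hN hNa
    have h3 := hno N hN0 hN ((ZMod.natCast_eq_natCast_iff _ _ _).1 hNa)
    have h4 : om S N % 2 < 2 := Nat.mod_lt _ (by norm_num)
    split_ifs with hj0
    · rcases (fs_CMS S).pm N hN0.ne' with h5 | h5
      · exfalso; apply h3; rw [(fs_one_iff S N).1 h5, hj0]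
      · exact h5
    · rw [fs_one_iff]; omega
  have hcop : ∀ l : ℕ, l.Prime → l ≠ q → (l : ZMod q) ≠ 0 := by
    intro l hl hlq h0
    rw [ZMod.natCast_eq_zero_iff] at h0
    exact hlq ((Nat.prime_dvd_prime_iff_eq hq hl).1 h0).symm
  rcases rigid (fs_CMS S) hac hC with h | h
  · obtain ⟨l, hl, hlq, hne, hlS⟩ := h1
    have := h l hlq (hcop l hl hne)
    rw [fs_one_iff, om_prime S hl hlS] at this
    omega
  · obtain ⟨l, hl, hlq, hne, hlS⟩ := h2
    apply hlS
    have := h l hlq (hcop l hl hne)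
    constructor
    · intro hS hsq
      have h5 := this.2 hsq
      rw [fs_one_iff, om_prime S hl hS] at h5
      omega
    · intro hsq
      by_contra hS
      apply hsq
      apply this.1
      rw [fs_one_iff, om_prime' S hl hS]

lemma exists_residue (q : ℕ) (hq : q.Prime) (h7 : 7 ≤ q) :
    ∃ l : ℕ, l.Prime ∧ l < 2 * q ∧ l ≠ q ∧ IsSquare (l : ZMod q) := by
  haveI : Fact q.Prime := ⟨hq⟩
  have hodd : q % 2 = 1 := hq.eq_two_or_odd.resolve_left (by omega)
  have hq4 : q % 4 = 1 ∨ q % 4 = 3 := by omega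
  have hq5 : ∀ l : ℕ, l.Prime → l = q → l ∣ q + 4 → False := by
    rintro l hl rfl h
    have h1 : l ∣ 4 := (Nat.dvd_add_right (dvd_refl l)).1 h
    have := Nat.le_of_dvd (by norm_num) h1
    omega
  rcases hq4 with h4 | h4
  · have h9 : 9 ≤ q - 4 := by
      by_contra hc
      have : q = 9 := by omega
      rw [this] at hq
      norm_num at hq
    set l := (q - 4).minFac with hl
    have hlp : l.Prime := Nat.minFac_prime (by omega)
    haveI : Fact l.Prime := ⟨hlp⟩
    have hld : l ∣ q - 4 := Nat.minFac_dvd _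
    have hle : l ≤ q - 4 := Nat.le_of_dvd (by omega) hld
    have hl2 : l ≠ 2 := by
      intro h2
      rw [h2] at hld
      omega
    refine ⟨l, hlp, by omega, by omega, ?_⟩
    rw [ZMod.exists_sq_eq_prime_iff_of_mod_four_eq_one h4 hl2]
    refine ⟨2, ?_⟩
    have h5 : ((q - 4 : ℕ) : ZMod l) = 0 := (ZMod.natCast_eq_zero_iff _ _).2 hld
    rw [Nat.cast_sub (by omega)] at h5
    push_cast at h5
    linear_combination h5
  · set l := (q + 4).minFac with hl
    have hlp : l.Prime := Nat.minFac_prime (by omega)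
    haveI : Fact l.Prime := ⟨hlp⟩
    have hld : l ∣ q + 4 := Nat.minFac_dvd _
    have hle : l ≤ q + 4 := Nat.le_of_dvd (by omega) hld
    have hl2 : l ≠ 2 := by
      intro h2
      rw [h2] at hld
      omega
    have hlq : l ≠ q := fun h => hq5 l hlp h hld
    refine ⟨l, hlp, by omega, hlq, ?_⟩
    have h5 : ((q + 4 : ℕ) : ZMod l) = 0 := (ZMod.natCast_eq_zero_iff _ _).2 hld
    push_cast at h5
    have hlodd : l % 2 = 1 := hlp.eq_two_or_odd.resolve_left hl2
    have h20 : (2 : ZMod l) ≠ 0 := by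
      intro h20
      have h21 : ((2 : ℕ) : ZMod l) = 0 := by exact_mod_cast h20
      rw [ZMod.natCast_eq_zero_iff] at h21
      exact hl2 ((Nat.prime_dvd_prime_iff_eq hlp Nat.prime_two).1 h21)
    rcases (show l % 4 = 1 ∨ l % 4 = 3 by omega) with h6 | h6
    · have h7 := ZMod.exists_sq_eq_prime_iff_of_mod_four_eq_one (p := l) (q := q) h6 (by omega)
      rw [← h7]
      obtain ⟨i, hi⟩ := (ZMod.exists_sq_eq_neg_one_iff (p := l)).2 (by omega)
      refine ⟨2 * i, ?_⟩
      linear_combination h5 + 4 * hi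
    · rw [ZMod.exists_sq_eq_prime_iff_of_mod_four_eq_three h4 h6 (Ne.symm hlq)]
      rintro ⟨x, hx⟩
      apply (ZMod.exists_sq_eq_neg_one_iff (p := l)).1 _ h6
      refine ⟨x / 2, ?_⟩
      field_simp
      linear_combination hx - h5

/-- the Liouville function -/
theorem liouville (q : ℕ) (hq : q.Prime) (a : ℕ) (ha : ¬ q ∣ a) (j : ℕ) (hj : j < 2) :
    ∃ N : ℕ, 0 < N ∧ N < 2 * q ^ 2 ∧ N ≡ a [MOD q] ∧ om Set.univ N % 2 = j := by
  rcases Nat.lt_or_ge q 7 with h7 | h7
  · have hom : ∀ n, om Set.univ n = n.primeFactorsList.length := by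
      intro n; unfold om; simp
    simp only [hom]
    have hq' : q = 2 ∨ q = 3 ∨ q = 5 := by
      have h2 := hq.two_le
      interval_cases q
      · left; rfl
      · right; left; rfl
      · norm_num at hq
      · right; right; rfl
      · norm_num at hq
    have hmod : ∀ r, a % q = r → ∀ N, N % q = r → N ≡ a [MOD q] := by
      intro r hr N hN; unfold Nat.ModEq; rw [hr, hN]
    rcases hq' with rfl | rfl | rfl
    · have ha' : a % 2 = 1 := by omega
      interval_cases j
      · exact ⟨1, by norm_num, by norm_num, hmod 1 ha' 1 rfl, by simp⟩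
      · exact ⟨3, by norm_num, by norm_num, hmod 1 ha' 3 rfl, by simp⟩
    · rcases (show a % 3 = 1 ∨ a % 3 = 2 by omega) with ha' | ha' <;> interval_cases j
      · exact ⟨1, by norm_num, by norm_num, hmod 1 ha' 1 rfl, by simp⟩
      · exact ⟨7, by norm_num, by norm_num, hmod 1 ha' 7 rfl, by simp⟩
      · exact ⟨14, by norm_num, by norm_num, hmod 2 ha' 14 rfl, by simp⟩
      · exact ⟨2, by norm_num, by norm_num, hmod 2 ha' 2 rfl, by simp⟩
    · rcases (show a % 5 = 1 ∨ a % 5 = 2 ∨ a % 5 = 3 ∨ a % 5 = 4 by omega) with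
        ha' | ha' | ha' | ha' <;> interval_cases j
      · exact ⟨1, by norm_num, by norm_num, hmod 1 ha' 1 rfl, by simp⟩
      · exact ⟨11, by norm_num, by norm_num, hmod 1 ha' 11 rfl, by simp⟩
      · exact ⟨22, by norm_num, by norm_num, hmod 2 ha' 22 rfl, by simp⟩
      · exact ⟨2, by norm_num, by norm_num, hmod 2 ha' 2 rfl, by simp⟩
      · exact ⟨33, by norm_num, by norm_num, hmod 3 ha' 33 rfl, by simp⟩
      · exact ⟨3, by norm_num, by norm_num, hmod 3 ha' 3 rfl, by simp⟩
      · exact ⟨4, by norm_num, by norm_num, hmod 4 ha' 4 rfl, by simp⟩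
      · exact ⟨19, by norm_num, by norm_num, hmod 4 ha' 19 rfl, by simp⟩
  · obtain ⟨l, hl, hlq, hne, hsq⟩ := exists_residue q hq h7
    refine general q hq Set.univ ⟨l, hl, hlq, hne, trivial⟩ ⟨l, hl, hlq, hne, ?_⟩ a ha j hj
    simp [hsq]

end Pool.Agent.H358R3
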