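import Pool.Agent.H358R3.Main

/-!
The rigidity theorem on odd integers (modulus `2 p`).
-/

namespace Pool.Agent.H358R3

namespace OddCase

section

variable {p : ℕ} [Fact p.Prime] {f : ℕ → ℤ}

/-- the odd representative -/
def od (g : ZMod p) : ℕ := if g.val % 2 = 1 then g.val else g.val + p

/-- the function on residues -/
def FO (f : ℕ → ℤ) (g : ZMod p) : ℤ := f (od g)

/-- the stabiliser -/
def KO (f : ℕ → ℤ) (h : ZMod p) : Prop :=
  h ≠ 0 ∧ ∀ g : ZMod p, g ≠ 0 → FO f (h * g) = FO f h * FO f g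

lemma od_odd (hp2 : p % 2 = 1) (g : ZMod p) : od g % 2 = 1 := by
  unfold od; split_ifs with h
  · exact h
  · omega

lemma od_lt (g : ZMod p) : od g < 2 * p := by
  have := ZMod.val_lt g
  unfold od; split_ifs <;> omega

lemma od_cast (g : ZMod p) : ((od g : ℕ) : ZMod p) = g := by
  unfold od; split_ifs
  · exact ZMod.natCast_zmod_val g
  · push_cast
    rw [ZMod.natCast_zmod_val]
    simp

/-- periodicity hypothesis -/
def Per (p : ℕ) (f : ℕ → ℤ) : Prop :=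
  ∀ n n' : ℕ, n % 2 = 1 → n' % 2 = 1 → n < 25 * p → n' < 25 * p → (n : ZMod p) = (n' : ZMod p) →
    (n : ZMod p) ≠ 0 → f n = f n'

lemma fF (hp2 : p % 2 = 1) (h : Per p f) {n : ℕ} (hn : n % 2 = 1) (hn2 : n < 25 * p)
    (h0 : (n : ZMod p) ≠ 0) : f n = FO f (n : ZMod p) := by
  unfold FO
  apply h _ _ hn (od_odd hp2 _) hn2 (by have := od_lt (n : ZMod p); omega) _ h0
  rw [od_cast]

lemma od_ne (hp2 : p % 2 = 1) (g : ZMod p) : od g ≠ 0 := by
  have := od_odd hp2 g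
  omega

lemma FO_sq (hf : CMS f) (hp2 : p % 2 = 1) (g : ZMod p) : FO f g * FO f g = 1 :=
  hf.sq (od_ne hp2 g)

lemma FO_ne (hf : CMS f) (hp2 : p % 2 = 1) (g : ZMod p) : FO f g ≠ 0 :=
  hf.ne_zero (od_ne hp2 g)

lemma FO_one (hf : CMS f) (hp2 : p % 2 = 1) (h : Per p f) : FO f (1 : ZMod p) = 1 := by
  have hp : p.Prime := Fact.out
  have := fF hp2 h (n := 1) rfl (by have := hp.two_le; omega) (by simp)
  rw [hf.one] at this
  simpa using this.symm

lemma KO_one (hf : CMS f) (hp2 : p % 2 = 1) (h : Per p f) : KO f (1 : ZMod p) :=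
  ⟨one_ne_zero, fun g _ => by rw [one_mul, FO_one hf hp2 h, one_mul]⟩

lemma KO_mul {a b : ZMod p} (ha : KO f a) (hb : KO f b) : KO f (a * b) := by
  refine ⟨mul_ne_zero ha.1 hb.1, fun g hg => ?_⟩
  rw [mul_assoc, ha.2 _ (mul_ne_zero hb.1 hg), hb.2 g hg, ha.2 b hb.1]
  ring

lemma KO_inv (hf : CMS f) (hp2 : p % 2 = 1) (hper : Per p f) {h : ZMod p} (hh : KO f h) :
    KO f h⁻¹ := by
  have h0 : h⁻¹ ≠ 0 := inv_ne_zero hh.1
  have e1 : FO f h * FO f h⁻¹ = 1 := by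
    rw [← hh.2 _ h0, mul_inv_cancel₀ hh.1, FO_one hf hp2 hper]
  have e2 : FO f h⁻¹ = FO f h := by
    have := FO_sq hf hp2 h
    have h3 : FO f h * (FO f h⁻¹ - FO f h) = 0 := by rw [mul_sub, e1, this, sub_self]
    rcases mul_eq_zero.1 h3 with h4 | h4
    · exact absurd h4 (FO_ne hf hp2 h)
    · linarith
  refine ⟨h0, fun g hg => ?_⟩
  have e3 := hh.2 (h⁻¹ * g) (mul_ne_zero h0 hg)
  rw [← mul_assoc, mul_inv_cancel₀ hh.1, one_mul] at e3
  rw [e2]
  calc FO f (h⁻¹ * g) = (FO f h * FO f h) * FO f (h⁻¹ * g) := by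
        rw [FO_sq hf hp2 h, one_mul]
    _ = FO f h * FO f g := by rw [e3]; ring

lemma key (hf : CMS f) (hp2 : p % 2 = 1) (hper : Per p f)
    {n r : ℕ} (hn : n % 2 = 1) (hr : r % 2 = 1) (hnr : n * r < 25 * p)
    {g κ : ZMod p} (hg : g ≠ 0) (hκ : KO f κ) (hn0 : (n : ZMod p) ≠ 0)
    (hgκ : g * κ = (r : ZMod p)) :
    FO f ((n : ZMod p) * g) = FO f (n : ZMod p) * FO f g := by
  have hrc : (r : ZMod p) ≠ 0 := by rw [← hgκ]; exact mul_ne_zero hg hκ.1
  have hnrc : ((n * r : ℕ) : ZMod p) ≠ 0 := by push_cast; exact mul_ne_zero hn0 hrc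
  have hn1 : 1 ≤ n := by omega
  have hr1 : 1 ≤ r := by omega
  have e1 := fF hp2 hper (n := n * r) (by rw [Nat.mul_mod, hn, hr]) hnr hnrc
  have e2 := fF hp2 hper (n := n) hn (by nlinarith) hn0
  have e3 := fF hp2 hper (n := r) hr (by nlinarith) hrc
  rw [hf.mul _ _ (by omega) (by omega), e2, e3] at e1
  push_cast at e1
  rw [← hgκ] at e1
  have e4 : FO f ((n : ZMod p) * (g * κ)) = FO f κ * FO f ((n : ZMod p) * g) := by
    rw [← hκ.2 _ (mul_ne_zero hn0 hg)]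
    congr 1
    ring
  have e5 : FO f (g * κ) = FO f κ * FO f g := by
    rw [mul_comm g κ, hκ.2 g hg]
  rw [e4, e5] at e1
  have e6 : FO f κ * (FO f ((n : ZMod p) * g) - FO f (n : ZMod p) * FO f g) = 0 := by
    linear_combination -e1
  rcases mul_eq_zero.1 e6 with h7 | h7
  · exact absurd h7 (FO_ne hf hp2 κ)
  · linarith

/-- removing common factors -/
lemma cop (hf : CMS f) (hp2 : p % 2 = 1) (hper : Per p f) {m : ℕ} (hm : m % 2 = 1)
    (hK : ∀ d : ℕ, d % 2 = 1 → d ≤ m → KO f (d : ZMod p)) (z : ZMod p) :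
    ∀ c : ℕ, 0 < c → (∃ κ, KO f κ ∧ z * κ = (c : ZMod p)) →
      ∃ c' : ℕ, 0 < c' ∧ c' ≤ c ∧ c' % 2 = c % 2 ∧ Nat.Coprime c' m ∧
        ∃ κ, KO f κ ∧ z * κ = (c' : ZMod p) := by
  intro c
  induction c using Nat.strong_induction_on with
  | _ c ih =>
  intro hc0 hc
  by_cases hcop : Nat.Coprime c m
  · exact ⟨c, hc0, le_rfl, rfl, hcop, hc⟩
  · obtain ⟨κ, hκ, hzκ⟩ := hc
    set d := Nat.gcd c m with hd
    have hd0 : 0 < d := Nat.gcd_pos_of_pos_left _ hc0
    have hd1 : d ≠ 1 := hcop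
    obtain ⟨t, ht⟩ : d ∣ c := Nat.gcd_dvd_left c m
    have hdm : d ∣ m := Nat.gcd_dvd_right c m
    have hm0 : 0 < m := by omega
    have hdle : d ≤ m := Nat.le_of_dvd hm0 hdm
    have hdodd : d % 2 = 1 := by
      obtain ⟨s, hs⟩ := hdm
      rcases Nat.mod_two_eq_zero_or_one d with h0 | h0
      · rw [hs, Nat.mul_mod, h0] at hm; simp at hm
      · exact h0
    have hKd := hK d hdodd hdle
    have ht0 : 0 < t := by
      rcases Nat.eq_zero_or_pos t with h0 | h0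
      · rw [h0] at ht; omega
      · exact h0
    have htc : t < c := by rw [ht]; nlinarith [show 2 ≤ d by omega]
    have htpar : t % 2 = c % 2 := by
      rw [ht, Nat.mul_mod, hdodd]; omega
    obtain ⟨c', h1, h2, h3, h4, h5⟩ := ih t htc ht0
      ⟨κ * (d : ZMod p)⁻¹, KO_mul hκ (KO_inv hf hp2 hper hKd), by
        rw [← mul_assoc, hzκ, ht]
        push_cast
        have := hKd.1
        field_simp⟩
    exact ⟨c', h1, by omega, by omega, h4, h5⟩

end

/-- solving the congruence with exact power of two -/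
lemma solve (i m c P : ℕ) (σ : ℤ) (hσ : σ * σ = 1) (hc : Nat.Coprime c (2 ^ (i + 1) * m))
    (hm : 0 < m) : ∃ x : ℕ, x < 2 ^ (i + 1) * m ∧ ∃ y : ℤ,
      σ * c * x + P = 2 ^ i * m * (1 + 2 * y) := by
  set M : ℕ := 2 ^ (i + 1) * m with hM
  have hM0 : 0 < M := by positivity
  have hcop : IsCoprime (c : ℤ) (M : ℤ) := Nat.isCoprime_iff_coprime.2 hc
  obtain ⟨u, w, huw⟩ := hcop
  set x0 : ℤ := σ * u * (2 ^ i * m - P) with hx0
  refine ⟨(x0 % M).toNat, ?_, ?_⟩
  · have h1 : 0 ≤ x0 % M := Int.emod_nonneg _ (by positivity)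
    have h2 : x0 % M < M := Int.emod_lt_of_pos _ (by positivity)
    omega
  · have h1 : 0 ≤ x0 % M := Int.emod_nonneg _ (by positivity)
    rw [Int.toNat_of_nonneg h1]
    have h2 : x0 % M = x0 - M * (x0 / M) := Int.emod_def x0 M
    have hMi : (M : ℤ) = 2 * (2 ^ i * m) := by rw [hM]; push_cast; ring
    refine ⟨-(w * (2 ^ i * m - P) + σ * c * (x0 / M)), ?_⟩
    rw [h2, hx0]
    have h3 : u * c = 1 - w * M := by linarith
    have : σ * c * (σ * u * (2 ^ i * m - P) - M * (σ * u * (2 ^ i * m - P) / M)) + P =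
        (σ * σ) * (u * c) * (2 ^ i * m - P) -
          σ * c * M * (σ * u * (2 ^ i * m - P) / M) + P := by ring
    rw [this, hσ, h3]
    rw [hMi]
    ring

/-- solving modulo the odd number `m` with an odd solution -/
lemma solveE (m c P : ℕ) (σ : ℤ) (hσ : σ * σ = 1) (hc : Nat.Coprime c m) (hm : m % 2 = 1) :
    ∃ x : ℕ, x % 2 = 1 ∧ x < 2 * m ∧ ∃ y : ℤ, σ * c * x + P = m * y := by
  have hm0 : 0 < m := by omega
  have hcop : IsCoprime (c : ℤ) (m : ℤ) := Nat.isCoprime_iff_coprime.2 hc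
  obtain ⟨u, w, huw⟩ := hcop
  set x0 : ℤ := σ * u * (-P) with hx0
  have h1 : 0 ≤ x0 % m := Int.emod_nonneg _ (by positivity)
  have h2 : x0 % m < m := Int.emod_lt_of_pos _ (by positivity)
  have h3 : x0 % m = x0 - m * (x0 / m) := Int.emod_def x0 m
  have hbase : σ * c * ((x0 % m).toNat : ℤ) + P = m * (w * P - σ * c * (x0 / m)) := by
    rw [Int.toNat_of_nonneg h1, h3, hx0]
    have h4 : u * c = 1 - w * m := by linarith
    have : σ * c * (σ * u * (-P) - m * (σ * u * (-P) / m)) + P =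
        (σ * σ) * (u * c) * (-P) - σ * c * m * (σ * u * (-P) / m) + P := by ring
    rw [this, hσ, h4]
    ring
  rcases Nat.mod_two_eq_zero_or_one (x0 % m).toNat with h0 | h0
  · refine ⟨(x0 % m).toNat + m, by omega, by omega, (w * P - σ * c * (x0 / m)) + σ * c, ?_⟩
    push_cast
    have : σ * c * (((x0 % m).toNat : ℤ) + m) + P =
        (σ * c * ((x0 % m).toNat : ℤ) + P) + σ * c * m := by ring
    rw [this, hbase]
    ring
  · exact ⟨(x0 % m).toNat, h0, by omega, _, hbase⟩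

end OddCase

end Pool.Agent.H358R3
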