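import Pool.Agent.H358R3.Odd

/-!
All residues are in the stabiliser (modulus `2 p`).
-/

namespace Pool.Agent.H358R3

namespace OddCase

section

variable {p : ℕ} [Fact p.Prime] {f : ℕ → ℤ}

lemma two_ne (hp2 : p % 2 = 1) : (2 : ZMod p) ≠ 0 := by
  have hp : p.Prime := Fact.out
  intro h
  have h2 : ((2 : ℕ) : ZMod p) = 0 := by exact_mod_cast h
  rw [ZMod.natCast_eq_zero_iff] at h2
  have := (Nat.prime_dvd_prime_iff_eq hp Nat.prime_two).1 h2
  omega

lemma fin (hf : CMS f) (hp2 : p % 2 = 1) (hper : Per p f) {n v m x c i P : ℕ} {σ : ℤ}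
    (hσ : σ * σ = 1) (hn : n % 2 = 1) (hv : v % 2 = 1) (hnv : n * v < 25 * p)
    {g κ : ZMod p} (hg : g ≠ 0) (hκ : KO f κ) (hn0 : (n : ZMod p) ≠ 0)
    (hzc : ((σ : ZMod p) * g * 2 ^ i) * κ = (c : ZMod p)) (hm : KO f (m : ZMod p))
    (hx : KO f (x : ZMod p)) (hP : (P : ZMod p) = 0)
    (heq : σ * c * x + P = 2 ^ i * m * v) :
    FO f ((n : ZMod p) * g) = FO f (n : ZMod p) * FO f g := by
  have hm0 := hm.1
  have h2i : (2 : ZMod p) ^ i ≠ 0 := pow_ne_zero _ (two_ne hp2)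
  have hσc : (σ : ZMod p) * (σ : ZMod p) = 1 := by exact_mod_cast congrArg (Int.cast : ℤ → ZMod p) hσ
  have e1 : (σ : ZMod p) * c * x + P = 2 ^ i * m * v := by
    exact_mod_cast congrArg (Int.cast : ℤ → ZMod p) heq
  rw [hP, add_zero, ← hzc] at e1
  have e2 : (2 : ZMod p) ^ i * (g * κ * x - m * v) = 0 := by
    linear_combination e1 - (2 : ZMod p) ^ i * g * κ * x * hσc
  have e3 : g * κ * x = m * v := by
    rcases mul_eq_zero.1 e2 with h | h
    · exact absurd h h2i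
    · linear_combination h
  refine key hf hp2 hper hn hv hnv hg (KO_mul (KO_mul hκ hx) (KO_inv hf hp2 hper hm)) hn0 ?_
  field_simp
  linear_combination e3

lemma pcast : ((p : ℕ) : ZMod p) = 0 := by simp

/-- the even case -/
lemma caseE (hf : CMS f) (hp2 : p % 2 = 1) (hper : Per p f) {n R : ℕ} {σ : ℤ}
    (hσ : σ = 1 ∨ σ = -1) (hn : n % 2 = 1) (hn13 : 13 ≤ n)
    (ih : ∀ d : ℕ, d % 2 = 1 → d < n → KO f (d : ZMod p))
    (hR0 : 0 < R) (hR : R % 2 = 0) (hb : (σ = 1 ∧ n * R ≤ 4 * p) ∨ n * R ≤ p)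
    {g κ : ZMod p} (hg : g ≠ 0) (hκ : KO f κ) (hn0 : (n : ZMod p) ≠ 0)
    (hzc : ((σ : ZMod p) * g) * κ = (R : ZMod p)) :
    FO f ((n : ZMod p) * g) = FO f (n : ZMod p) * FO f g := by
  have hσ2 : σ * σ = 1 := by rcases hσ with h | h <;> rw [h] <;> norm_num
  obtain ⟨m, hm1, hm2, hm3, hm5⟩ : ∃ m : ℕ, m % 2 = 1 ∧ 2 * m < n ∧ n ≤ 2 * m + 3 ∧ 5 ≤ m := by
    rcases Nat.mod_two_eq_zero_or_one ((n - 1) / 2) with h | h
    · exact ⟨(n - 1) / 2 - 1, by omega, by omega, by omega, by omega⟩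
    · exact ⟨(n - 1) / 2, by omega, by omega, by omega, by omega⟩
  obtain ⟨c, hc0, hcR, hcpar, hcm, κ', hκ', hzc'⟩ := cop hf hp2 hper hm1
    (fun d hd hdm => ih d hd (by omega)) ((σ : ZMod p) * g) R hR0 ⟨κ, hκ, hzc⟩
  obtain ⟨x, hx1, hx2, y, hy⟩ := solveE m c p σ hσ2 hcm hm1
  have hxn : x < n := by omega
  have hcx : c * x < R * n := by
    calc c * x ≤ R * x := Nat.mul_le_mul_right _ hcR
      _ < R * n := Nat.mul_lt_mul_of_pos_left hxn hR0
  have hcx' : ((c * x : ℕ) : ℤ) < (R * n : ℕ) := by exact_mod_cast hcx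
  push_cast at hcx'
  have hmz : (0 : ℤ) < m := by positivity
  -- bounds for m * y
  have hlow : 0 < (m : ℤ) * y := by
    rw [← hy]
    rcases hσ with h | h
    · rw [h]; have : (0 : ℤ) < p := by exact_mod_cast (Fact.out : p.Prime).pos
      positivity
    · rw [h]
      rcases hb with h1 | h1
      · rw [h] at h1; norm_num at h1
      · have : ((n * R : ℕ) : ℤ) ≤ (p : ℕ) := by exact_mod_cast h1
        push_cast at this
        nlinarith
  have hup : (m : ℤ) * y < 5 * p := by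
    rw [← hy]
    rcases hb with ⟨h0, h1⟩ | h1
    · rw [h0]
      have : ((n * R : ℕ) : ℤ) ≤ (4 * p : ℕ) := by exact_mod_cast h1
      push_cast at this
      nlinarith
    · have : ((n * R : ℕ) : ℤ) ≤ (p : ℕ) := by exact_mod_cast h1
      push_cast at this
      have h0 : (0 : ℤ) ≤ (c : ℤ) * x := by positivity
      rcases hσ with h | h <;> rw [h] <;> nlinarith
  have hy0 : 0 < y := by
    by_contra h
    push Not at h
    nlinarith
  obtain ⟨v, rfl⟩ : ∃ v : ℕ, y = v := ⟨y.toNat, by omega⟩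
  have hcpar0 : c % 2 = 0 := by omega
  have hmv : m * v < 5 * p := by exact_mod_cast hup
  have hvodd : v % 2 = 1 := by
    rcases Nat.mod_two_eq_zero_or_one v with h | h
    · exfalso
      obtain ⟨c2, hc2⟩ : ∃ c2, c = 2 * c2 := ⟨c / 2, by omega⟩
      obtain ⟨v2, hv2⟩ : ∃ v2, v = 2 * v2 := ⟨v / 2, by omega⟩
      obtain ⟨p2, hp2'⟩ : ∃ p2, p = 2 * p2 + 1 := ⟨p / 2, by omega⟩
      rw [hc2, hv2, hp2'] at hy
      push_cast at hy
      have h3 : σ * (2 * (c2 : ℤ)) * x + (2 * p2 + 1) = 2 * (σ * c2 * x + p2) + 1 := by ring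
      rw [h3] at hy
      have h4 : (m : ℤ) * (2 * v2) = 2 * (m * v2) := by ring
      rw [h4] at hy
      omega
    · exact h
  have hnv : n * v < 25 * p := by
    have h1 : n * v ≤ (2 * m + 3) * v := Nat.mul_le_mul_right _ hm3
    have h2 : 5 * v ≤ m * v := Nat.mul_le_mul_right _ hm5
    nlinarith
  refine fin hf hp2 hper (i := 0) (m := m) (x := x) (c := c) (P := p) (v := v) hσ2 hn hvodd hnv hg
    hκ' hn0 ?_ (ih m hm1 (by omega)) (ih x hx1 hxn) pcast ?_
  · rw [pow_zero, mul_one]; exact hzc'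
  · rw [pow_zero, one_mul]; exact hy

end

end OddCase

end Pool.Agent.H358R3
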