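import Pool.Agent.H358R3.Odd2

/-!
All residues are in the stabiliser (modulus `2 p`), main induction.
-/

namespace Pool.Agent.H358R3

namespace OddCase

section

variable {p : ℕ} [Fact p.Prime] {f : ℕ → ℤ}

/-- the case `R` odd, negative sign, no power of two -/
lemma caseO (hf : CMS f) (hp2 : p % 2 = 1) (hper : Per p f) {n R : ℕ}
    (hn : n % 2 = 1) (hn13 : 13 ≤ n)
    (ih : ∀ d : ℕ, d % 2 = 1 → d < n → KO f (d : ZMod p))
    (hR0 : 0 < R) (hR : R % 2 = 1) (hb : n * R ≤ p)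
    {g κ : ZMod p} (hg : g ≠ 0) (hκ : KO f κ) (hn0 : (n : ZMod p) ≠ 0)
    (hzc : (((-1 : ℤ) : ZMod p) * g) * κ = (R : ZMod p)) :
    FO f ((n : ZMod p) * g) = FO f (n : ZMod p) * FO f g := by
  obtain ⟨m, hm1, hm2, hm3, hm5⟩ : ∃ m : ℕ, m % 2 = 1 ∧ 2 * m < n ∧ n ≤ 2 * m + 3 ∧ 5 ≤ m := by
    rcases Nat.mod_two_eq_zero_or_one ((n - 1) / 2) with h | h
    · exact ⟨(n - 1) / 2 - 1, by omega, by omega, by omega, by omega⟩
    · exact ⟨(n - 1) / 2, by omega, by omega, by omega, by omega⟩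
  obtain ⟨c, hc0, hcR, hcpar, hcm, κ', hκ', hzc'⟩ := cop hf hp2 hper hm1
    (fun d hd hdm => ih d hd (by omega)) (((-1 : ℤ) : ZMod p) * g) R hR0 ⟨κ, hκ, hzc⟩
  have hcodd : c % 2 = 1 := by omega
  have hcop : Nat.Coprime c (2 ^ (0 + 1) * m) := by
    apply Nat.Coprime.mul_right _ hcm
    rw [zero_add, pow_one]
    exact (Nat.coprime_two_right).2 (Nat.odd_iff.2 hcodd)
  obtain ⟨x, hx2, y, hy⟩ := solve 0 m c (2 * p) (-1) (by norm_num) hcop (by omega)
  have hxn : x < n := by omega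
  have hcx : c * x < R * n := by
    calc c * x ≤ R * x := Nat.mul_le_mul_right _ hcR
      _ < R * n := Nat.mul_lt_mul_of_pos_left hxn hR0
  have hcx' : ((c * x : ℕ) : ℤ) < (R * n : ℕ) := by exact_mod_cast hcx
  push_cast at hcx' hy
  have hb' : ((n * R : ℕ) : ℤ) ≤ (p : ℕ) := by exact_mod_cast hb
  push_cast at hb'
  have hpz : (0 : ℤ) < p := by exact_mod_cast (Fact.out : p.Prime).pos
  have hmz : (0 : ℤ) < m := by positivity
  have hlow : 0 < (m : ℤ) * (1 + 2 * y) := by nlinarith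
  have hup : (m : ℤ) * (1 + 2 * y) ≤ 2 * p := by
    have h0 : (0 : ℤ) ≤ (c : ℤ) * x := by positivity
    nlinarith
  have hy0 : 0 < 1 + 2 * y := by
    by_contra h
    push Not at h
    nlinarith
  obtain ⟨v, hv⟩ : ∃ v : ℕ, 1 + 2 * y = v := ⟨(1 + 2 * y).toNat, by omega⟩
  have hvodd : v % 2 = 1 := by omega
  rw [hv] at hy hup
  have hmv : m * v ≤ 2 * p := by exact_mod_cast hup
  have hx1 : x % 2 = 1 := by
    rcases Nat.mod_two_eq_zero_or_one x with h | h
    · exfalso
      obtain ⟨x2, hx2'⟩ : ∃ x2, x = 2 * x2 := ⟨x / 2, by omega⟩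
      obtain ⟨m2, hm2'⟩ : ∃ m2, m = 2 * m2 + 1 := ⟨m / 2, by omega⟩
      obtain ⟨v2, hv2'⟩ : ∃ v2, v = 2 * v2 + 1 := ⟨v / 2, by omega⟩
      rw [hx2', hm2', hv2'] at hy
      push_cast at hy
      have h3 : -1 * (c : ℤ) * (2 * x2) + 2 * p = 2 * (-(c * x2) + p) := by ring
      rw [h3] at hy
      have h4 : (1 : ℤ) * (2 * m2 + 1) * (2 * v2 + 1) = 2 * (2 * m2 * v2 + m2 + v2) + 1 := by ring
      rw [h4] at hy
      omega
    · exact h
  have hnv : n * v < 25 * p := by
    have h1 : n * v ≤ (2 * m + 3) * v := Nat.mul_le_mul_right _ hm3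
    have h2 : 5 * v ≤ m * v := Nat.mul_le_mul_right _ hm5
    have hpp : 0 < p := (Fact.out : p.Prime).pos
    nlinarith
  refine fin hf hp2 hper (i := 0) (m := m) (x := x) (c := c) (P := 2 * p) (v := v) (σ := -1)
    (by norm_num) hn hvodd hnv hg hκ' hn0 ?_ (ih m hm1 (by omega)) (ih x hx1 hxn) ?_ ?_
  · rw [pow_zero, mul_one]; exact hzc'
  · push_cast; simp
  · push_cast; exact hy

set_option maxHeartbeats 2000000 in
/-- the case of a power of two -/
lemma caseH (hf : CMS f) (hp2 : p % 2 = 1) (hper : Per p f) {n R i : ℕ} {σ : ℤ}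
    (hσ : σ = 1 ∨ σ = -1) (hn : n % 2 = 1) (hn13 : 13 ≤ n) (hi1 : 1 ≤ i) (hin : 2 ^ i < n)
    (ih : ∀ d : ℕ, d % 2 = 1 → d < n → KO f (d : ZMod p))
    (hR0 : 0 < R) (hR : R % 2 = 1) (hb : n * R ≤ p)
    {g κ : ZMod p} (hg : g ≠ 0) (hκ : KO f κ) (hn0 : (n : ZMod p) ≠ 0)
    (hzc : ((σ : ZMod p) * g * 2 ^ i) * κ = (R : ZMod p)) :
    FO f ((n : ZMod p) * g) = FO f (n : ZMod p) * FO f g := by
  have hσ2 : σ * σ = 1 := by rcases hσ with h | h <;> rw [h] <;> norm_num
  have hσc : (σ : ZMod p) * (σ : ZMod p) = 1 := by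
    exact_mod_cast congrArg (Int.cast : ℤ → ZMod p) hσ2
  have hpz : (0 : ℤ) < p := by exact_mod_cast (Fact.out : p.Prime).pos
  have hpp : 0 < p := (Fact.out : p.Prime).pos
  have hb' : ((n * R : ℕ) : ℤ) ≤ (p : ℕ) := by exact_mod_cast hb
  push_cast at hb'
  obtain ⟨I, hI⟩ : ∃ I, I = 2 ^ i := ⟨_, rfl⟩
  have hI2 : I % 2 = 0 := by
    rw [hI, show i = (i - 1) + 1 by omega, pow_succ]; omega
  have hIpos : 0 < I := by rw [hI]; positivity
  have ht : 2 ^ (i + 1) = 2 * I := by rw [hI]; ring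
  have hIn : I < n := by rw [hI]; exact hin
  rcases Nat.lt_or_ge (2 * I) n with htn | htn
  · -- there is an odd multiplier
    obtain ⟨m, hm1, hm2, hm3⟩ : ∃ m : ℕ, m % 2 = 1 ∧ 2 * I * m < n ∧ n ≤ 2 * I * (m + 2) := by
      set k := (n - 1) / (2 * I) with hk
      have hk1 : 1 ≤ k := by
        rw [hk, Nat.le_div_iff_mul_le (by omega)]; omega
      have h1 : 2 * I * k ≤ n - 1 := Nat.mul_div_le _ _
      have h2 : n - 1 < 2 * I * (k + 1) := Nat.lt_mul_div_succ _ (by omega)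
      rcases Nat.mod_two_eq_zero_or_one k with h | h
      · refine ⟨k - 1, by omega, ?_, ?_⟩
        · have : 2 * I * (k - 1) ≤ 2 * I * k := Nat.mul_le_mul_left _ (by omega)
          omega
        · rw [show k - 1 + 2 = k + 1 by omega]; omega
      · refine ⟨k, h, by omega, ?_⟩
        have : 2 * I * (k + 1) ≤ 2 * I * (k + 2) := Nat.mul_le_mul_left _ (by omega)
        omega
    have hmn : m < n := by
      have : 1 * m ≤ 2 * I * m := Nat.mul_le_mul_right _ (by omega)
      omega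
    obtain ⟨c, hc0, hcR, hcpar, hcm, κ', hκ', hzc'⟩ := cop hf hp2 hper hm1
      (fun d hd hdm => ih d hd (by omega)) ((σ : ZMod p) * g * 2 ^ i) R hR0 ⟨κ, hκ, hzc⟩
    have hcodd : c % 2 = 1 := by omega
    have hcop : Nat.Coprime c (2 ^ (i + 1) * m) := by
      apply Nat.Coprime.mul_right _ hcm
      apply Nat.Coprime.pow_right
      exact (Nat.coprime_two_right).2 (Nat.odd_iff.2 hcodd)
    obtain ⟨x, hx2, y, hy⟩ := solve i m c p σ hσ2 hcop (by omega)
    rw [ht] at hx2
    have hxn : x < n := by omega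
    have hcx : c * x < R * n := by
      calc c * x ≤ R * x := Nat.mul_le_mul_right _ hcR
        _ < R * n := Nat.mul_lt_mul_of_pos_left hxn hR0
    have hcx' : ((c * x : ℕ) : ℤ) < (R * n : ℕ) := by exact_mod_cast hcx
    push_cast at hcx'
    have hIz : ((2 : ℤ) ^ i) = (I : ℤ) := by rw [hI]; push_cast; rfl
    rw [hIz] at hy
    have hmz : (0 : ℤ) < m := by omega
    have hIz0 : (0 : ℤ) < I := by omega
    have h0 : (0 : ℤ) ≤ (c : ℤ) * x := by positivity
    have hlow : 0 < (I : ℤ) * m * (1 + 2 * y) := by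
      rw [← hy]
      rcases hσ with h | h <;> rw [h] <;> linarith
    have hup : (I : ℤ) * m * (1 + 2 * y) ≤ 2 * p := by
      rw [← hy]
      rcases hσ with h | h <;> rw [h] <;> linarith
    have hy0 : 0 < 1 + 2 * y := by
      have hIm : (0 : ℤ) < (I : ℤ) * m := mul_pos hIz0 hmz
      exact pos_of_mul_pos_right hlow hIm.le
    obtain ⟨v, hv⟩ : ∃ v : ℕ, 1 + 2 * y = v := ⟨(1 + 2 * y).toNat, by omega⟩
    have hvodd : v % 2 = 1 := by omega
    rw [hv] at hy hup
    have hmv : I * m * v ≤ 2 * p := by exact_mod_cast hup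
    have hx1 : x % 2 = 1 := by
      rcases Nat.mod_two_eq_zero_or_one x with h | h
      · exfalso
        obtain ⟨x2, hx2'⟩ : ∃ x2, x = 2 * x2 := ⟨x / 2, by omega⟩
        obtain ⟨I2, hI2'⟩ : ∃ I2, I = 2 * I2 := ⟨I / 2, by omega⟩
        obtain ⟨p2, hp2'⟩ : ∃ p2, p = 2 * p2 + 1 := ⟨p / 2, by omega⟩
        rw [hx2', hI2', hp2'] at hy
        push_cast at hy
        have h3 : σ * (c : ℤ) * (2 * x2) + (2 * p2 + 1) = 2 * (σ * c * x2 + p2) + 1 := by ring
        rw [h3] at hy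
        have h4 : (2 : ℤ) * I2 * m * v = 2 * (I2 * m * v) := by ring
        rw [h4] at hy
        omega
      · exact h
    have hnv : n * v < 25 * p := by
      have h1 : n * v ≤ 2 * I * (m + 2) * v := Nat.mul_le_mul_right _ hm3
      have hm1' : 1 ≤ m := by omega
      have h2 : 2 * I * (m + 2) * v ≤ 2 * I * (3 * m) * v :=
        Nat.mul_le_mul_right _ (Nat.mul_le_mul_left _ (by omega))
      have h3 : 2 * I * (3 * m) * v = 6 * (I * m * v) := by ring
      omega
    refine fin hf hp2 hper (i := i) (m := m) (x := x) (c := c) (P := p) (v := v) hσ2 hn hvodd hnv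
      hg hκ' hn0 hzc' (ih m hm1 hmn) (ih x hx1 hxn) pcast ?_
    rw [hIz]
    exact hy
  · -- `2 ^ (i + 1)` is at least `n`
    have hcop : Nat.Coprime R (2 ^ (i + 1) * 1) := by
      rw [mul_one]
      apply Nat.Coprime.pow_right
      exact (Nat.coprime_two_right).2 (Nat.odd_iff.2 hR)
    obtain ⟨x, hx2, y, hy⟩ := solve i 1 R p σ hσ2 hcop (by omega)
    rw [ht, mul_one] at hx2
    have hIz : ((2 : ℤ) ^ i) = (I : ℤ) := by rw [hI]; push_cast; rfl
    rw [hIz] at hy
    push_cast at hy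
    rw [mul_one] at hy
    have hIz0 : (0 : ℤ) < I := by omega
    have hx1 : x % 2 = 1 := by
      rcases Nat.mod_two_eq_zero_or_one x with h | h
      · exfalso
        obtain ⟨x2, hx2'⟩ : ∃ x2, x = 2 * x2 := ⟨x / 2, by omega⟩
        obtain ⟨I2, hI2'⟩ : ∃ I2, I = 2 * I2 := ⟨I / 2, by omega⟩
        obtain ⟨p2, hp2'⟩ : ∃ p2, p = 2 * p2 + 1 := ⟨p / 2, by omega⟩
        rw [hx2', hI2', hp2'] at hy
        push_cast at hy
        have h3 : σ * (R : ℤ) * (2 * x2) + (2 * p2 + 1) = 2 * (σ * R * x2 + p2) + 1 := by ring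
        rw [h3] at hy
        have h4 : (2 : ℤ) * I2 * (1 + 2 * y) = 2 * (I2 * (1 + 2 * y)) := by ring
        rw [h4] at hy
        omega
      · exact h
    rcases Nat.lt_or_ge x n with hxn | hxn
    · have hcx : R * x < R * n := Nat.mul_lt_mul_of_pos_left hxn hR0
      have hcx' : ((R * x : ℕ) : ℤ) < (R * n : ℕ) := by exact_mod_cast hcx
      push_cast at hcx'
      have h0 : (0 : ℤ) ≤ (R : ℤ) * x := by positivity
      have hlow : 0 < (I : ℤ) * (1 + 2 * y) := by
        rw [← hy]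
        rcases hσ with h | h <;> rw [h] <;> linarith
      have hup : (I : ℤ) * (1 + 2 * y) ≤ 2 * p := by
        rw [← hy]
        rcases hσ with h | h <;> rw [h] <;> linarith
      have hy0 : 0 < 1 + 2 * y := pos_of_mul_pos_right hlow hIz0.le
      obtain ⟨v, hv⟩ : ∃ v : ℕ, 1 + 2 * y = v := ⟨(1 + 2 * y).toNat, by omega⟩
      have hvodd : v % 2 = 1 := by omega
      rw [hv] at hy hup
      have hmv : I * v ≤ 2 * p := by exact_mod_cast hup
      have hnv : n * v < 25 * p := by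
        have h1 : n * v ≤ 2 * I * v := Nat.mul_le_mul_right _ htn
        have h2 : 2 * I * v = 2 * (I * v) := by ring
        omega
      refine fin hf hp2 hper (i := i) (m := 1) (x := x) (c := R) (P := p) (v := v) hσ2 hn hvodd hnv
        hg hκ hn0 hzc (ih 1 (by norm_num) (by omega)) (ih x hx1 hxn) pcast ?_
      rw [hIz, hy]
      push_cast
      ring
    · -- reduce to the even case
      obtain ⟨w, hw⟩ : ∃ w, x = w + I := ⟨x - I, by omega⟩
      have hwn : w < n := by omega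
      have hw1 : w % 2 = 1 := by omega
      have hy2 : σ * R * w + p = I * (1 + 2 * y - σ * R) := by
        rw [hw] at hy
        push_cast at hy
        linear_combination hy
      have hcx : R * w < R * n := Nat.mul_lt_mul_of_pos_left hwn hR0
      have hcx' : ((R * w : ℕ) : ℤ) < (R * n : ℕ) := by exact_mod_cast hcx
      push_cast at hcx'
      have h0 : (0 : ℤ) ≤ (R : ℤ) * w := by positivity
      have hlow : 0 < (I : ℤ) * (1 + 2 * y - σ * R) := by
        rw [← hy2]
        rcases hσ with h | h <;> rw [h] <;> linarith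
      have hup : (I : ℤ) * (1 + 2 * y - σ * R) ≤ 2 * p := by
        rw [← hy2]
        rcases hσ with h | h <;> rw [h] <;> linarith
      have hy0 : 0 < 1 + 2 * y - σ * R := pos_of_mul_pos_right hlow hIz0.le
      obtain ⟨v, hv⟩ : ∃ v : ℕ, 1 + 2 * y - σ * R = v := ⟨(1 + 2 * y - σ * R).toNat, by omega⟩
      have hveven : v % 2 = 0 := by
        obtain ⟨R2, hR2⟩ : ∃ R2, R = 2 * R2 + 1 := ⟨R / 2, by omega⟩
        rcases hσ with h | h
        · rw [h, one_mul] at hv; omega
        · rw [h] at hv; omega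
      rw [hv] at hy2 hup
      have hmv : I * v ≤ 2 * p := by exact_mod_cast hup
      have hv0 : 0 < v := by
        have : (0 : ℤ) < v := by rw [← hv]; exact hy0
        exact_mod_cast this
      have hnv : n * v ≤ 4 * p := by
        have h1 : n * v ≤ 2 * I * v := Nat.mul_le_mul_right _ htn
        have h2 : 2 * I * v = 2 * (I * v) := by ring
        omega
      refine caseE hf hp2 hper (R := v) (σ := 1) (κ := κ * (w : ZMod p)) (Or.inl rfl) hn hn13 ih hv0
        hveven (Or.inl ⟨rfl, hnv⟩) hg (KO_mul hκ (ih w hw1 hwn)) hn0 ?_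
      have e1 : (σ : ZMod p) * R * w + p = (I : ZMod p) * v := by
        exact_mod_cast congrArg (Int.cast : ℤ → ZMod p) hy2
      rw [pcast, add_zero, ← hzc] at e1
      have hIc : (I : ZMod p) = 2 ^ i := by rw [hI]; push_cast; rfl
      rw [hIc] at e1
      have h2i : (2 : ZMod p) ^ i ≠ 0 := pow_ne_zero _ (two_ne hp2)
      have e2 : (2 : ZMod p) ^ i * (g * κ * w - v) = 0 := by
        linear_combination e1 - (2 : ZMod p) ^ i * g * κ * w * hσc
      have e3 : g * κ * w = v := by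
        rcases mul_eq_zero.1 e2 with h | h
        · exact absurd h h2i
        · linear_combination h
      rw [← e3]
      push_cast
      ring

end

end OddCase

end Pool.Agent.H358R3
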