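import Pool.Agent.H358R3.Odd3

/-!
The theorem for the modulus `2 p`.
-/

namespace Pool.Agent.H358R3

namespace OddCase

section

variable {p : ℕ} [Fact p.Prime] {f : ℕ → ℤ}

/-- every odd residue representative is in the stabiliser -/
lemma all_KO (hf : CMS f) (hp2 : p % 2 = 1) (hper : Per p f) :
    ∀ n : ℕ, n % 2 = 1 → n < p → KO f (n : ZMod p) := by
  intro n
  induction n using Nat.strong_induction_on with
  | _ n ih =>
  intro hn hnp
  have hn0 : (n : ZMod p) ≠ 0 := cast_ne (by omega) hnp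
  refine ⟨hn0, fun g hg => ?_⟩
  rcases Nat.lt_or_ge n 13 with hn13 | hn13
  · have hgv := od_lt g
    refine key hf hp2 hper (n := n) (r := od g) hn (od_odd hp2 g) ?_ hg (KO_one hf hp2 hper) hn0
      (by rw [mul_one, od_cast])
    have : n * od g ≤ 12 * od g := Nat.mul_le_mul_right _ (by omega)
    omega
  · have ih' : ∀ d : ℕ, d % 2 = 1 → d < n → KO f (d : ZMod p) :=
      fun d hd hdn => ih d hdn hd (by omega)
    obtain ⟨b, r, hb0, hbn, hr0, hnr, hbr⟩ := dir g hg (by omega : 3 ≤ n) hnp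
    -- minimal power of two
    have hex : ∃ i : ℕ, 2 ^ i < n ∧ ∃ R : ℕ, 0 < R ∧ n * R ≤ p ∧ ∃ σ : ℤ, (σ = 1 ∨ σ = -1) ∧
        ∃ κ : ZMod p, KO f κ ∧ ((σ : ZMod p) * g * 2 ^ i) * κ = (R : ZMod p) := by
      obtain ⟨i, b', hb', hbb⟩ := Nat.exists_eq_two_pow_mul_odd hb0.ne'
      have hb'1 : 1 ≤ b' := hb'.pos
      have hb'le : b' ≤ b := by
        rw [hbb]; exact Nat.le_mul_of_pos_left _ (by positivity)
      have h2ib : 2 ^ i ≤ b := by
        rw [hbb]; exact Nat.le_mul_of_pos_right _ hb'1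
      have hKb := ih' b' (Nat.odd_iff.1 hb') (by omega)
      rcases hbr with hbr | hbr
      · refine ⟨i, by omega, r, hr0, hnr, 1, Or.inl rfl, _, hKb, ?_⟩
        rw [← hbr, hbb]
        push_cast
        ring
      · refine ⟨i, by omega, r, hr0, hnr, -1, Or.inr rfl, _, hKb, ?_⟩
        have : (r : ZMod p) = -(g * (b : ZMod p)) := by rw [hbr]; ring
        rw [this, hbb]
        push_cast
        ring
    classical
    obtain ⟨hin, R, hR0, hnR, σ, hσ, κ, hκ, hzc⟩ := Nat.find_spec hex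
    have hmin : ∀ t, t < Nat.find hex → _ := fun t ht => Nat.find_min hex ht
    set i := Nat.find hex with hi
    rcases Nat.mod_two_eq_zero_or_one R with hR | hR
    · -- R even
      rcases Nat.eq_zero_or_pos i with hi0 | hi0
      · refine caseE hf hp2 hper (R := R) (κ := κ) hσ hn hn13 ih' hR0 hR (Or.inr hnR) hg hκ hn0 ?_
        rw [hi0, pow_zero, mul_one] at hzc
        exact hzc
      · exfalso
        apply hmin (i - 1) (by omega)
        obtain ⟨R2, hR2⟩ : ∃ R2, R = 2 * R2 := ⟨R / 2, by omega⟩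
        refine ⟨lt_of_le_of_lt (Nat.pow_le_pow_right (by norm_num) (by omega)) hin, R2, by omega,
          by nlinarith, σ, hσ, κ, hκ, ?_⟩
        obtain ⟨j, hj⟩ : ∃ j, i = j + 1 := ⟨i - 1, by omega⟩
        rw [hj, Nat.add_sub_cancel]
        rw [hj, hR2] at hzc
        push_cast at hzc
        have h2 := two_ne (p := p) hp2
        have e : (2 : ZMod p) * ((σ : ZMod p) * g * 2 ^ j * κ - R2) = 0 := by
          linear_combination hzc
        rcases mul_eq_zero.1 e with h | h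
        · exact absurd h h2
        · linear_combination h
    · rcases Nat.eq_zero_or_pos i with hi0 | hi0
      · rw [hi0, pow_zero, mul_one] at hzc
        rcases hσ with h | h
        · refine key hf hp2 hper (n := n) (r := R) hn hR (by omega) hg hκ hn0 ?_
          rw [← hzc, h]
          push_cast
          ring
        · refine caseO hf hp2 hper (R := R) (κ := κ) hn hn13 ih' hR0 hR hnR hg hκ hn0 ?_
          rw [← hzc, h]
      · exact caseH hf hp2 hper (R := R) (κ := κ) hσ hn hn13 hi0 hin ih' hR0 hR hnR hg hκ hn0 hzc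

lemma KO_two (hf : CMS f) (hp2 : p % 2 = 1) (hper : Per p f) (hp5 : 5 ≤ p) :
    KO f (2 : ZMod p) := by
  have h1 := all_KO hf hp2 hper (p - 4) (by omega) (by omega)
  have h2 := all_KO hf hp2 hper (p - 2) (by omega) (by omega)
  have h3 := KO_mul h1 (KO_inv hf hp2 hper h2)
  have e1 : ((p - 4 : ℕ) : ZMod p) = -4 := by
    rw [Nat.cast_sub (by omega)]; simp
  have e2 : ((p - 2 : ℕ) : ZMod p) = -2 := by
    rw [Nat.cast_sub (by omega)]; simp
  rw [e1, e2] at h3
  have h20 := two_ne (p := p) hp2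
  have e3 : (-4 : ZMod p) * (-2)⁻¹ = 2 := by
    rw [← div_eq_mul_inv, div_eq_iff (neg_ne_zero.2 h20)]
    ring
  rwa [e3] at h3

lemma all_KO' (hf : CMS f) (hp2 : p % 2 = 1) (hper : Per p f) (hp5 : 5 ≤ p) :
    ∀ n : ℕ, 0 < n → n < p → KO f (n : ZMod p) := by
  intro n
  induction n using Nat.strong_induction_on with
  | _ n ih =>
  intro hn0 hnp
  rcases Nat.mod_two_eq_zero_or_one n with h | h
  · obtain ⟨n2, hn2⟩ : ∃ n2, n = 2 * n2 := ⟨n / 2, by omega⟩
    have h1 := KO_mul (KO_two hf hp2 hper hp5) (ih n2 (by omega) (by omega) (by omega))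
    rw [hn2]
    push_cast
    exact h1
  · exact all_KO hf hp2 hper n h hnp

lemma FO_mul (hf : CMS f) (hp2 : p % 2 = 1) (hper : Per p f) (hp5 : 5 ≤ p)
    {x y : ZMod p} (hx : x ≠ 0) (hy : y ≠ 0) : FO f (x * y) = FO f x * FO f y := by
  have h1 := all_KO' hf hp2 hper hp5 x.val (Nat.pos_of_ne_zero (val_ne hx)) (ZMod.val_lt x)
  rw [ZMod.natCast_zmod_val] at h1
  exact h1.2 y hy

/-- squares have value `1` -/
lemma FO_square (hf : CMS f) (hp2 : p % 2 = 1) (hper : Per p f) (hp5 : 5 ≤ p)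
    {x : ZMod p} (hx : x ≠ 0) (hs : IsSquare x) : FO f x = 1 := by
  obtain ⟨y, rfl⟩ := hs
  have hy : y ≠ 0 := by rintro rfl; simp at hx
  rw [FO_mul hf hp2 hper hp5 hy hy, FO_sq hf hp2]

/-- the periodicity from the hypothesis on the class of `1` modulo `2 p` -/
lemma per_of (hf : CMS f) (hp2 : p % 2 = 1) {e : ℤ}
    (h : ∀ k : ℕ, 1 ≤ k → k < 75 * p → ¬ p ∣ k → f (2 * k * p + 1) = e) : Per p f := by
  have hp : p.Prime := Fact.out
  intro n n' hn hn' hnp hnp' hnn hn0
  have hn0' : (n' : ZMod p) ≠ 0 := by rw [← hnn]; exact hn0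
  have hp0 : 0 < p := hp.pos
  set w0 := od ((n : ZMod p)⁻¹) with hw0
  have hw0o : w0 % 2 = 1 := od_odd hp2 _
  have hw0l : w0 < 2 * p := od_lt _
  have hw0c : ((w0 : ℕ) : ZMod p) = (n : ZMod p)⁻¹ := od_cast _
  -- the claim for a good multiplier
  have good : ∀ (w : ℕ) (m : ℕ), w % 2 = 1 → w < 6 * p → m % 2 = 1 → m < 25 * p →
      ((w : ℕ) : ZMod p) * m = 1 → ¬ (p * p ∣ m * w - 1) → f (m * w) = e := by
    intro w m hw1 hw2 hm1 hm2 hwm hnd
    have hmw1 : (m * w) % 2 = 1 := by rw [Nat.mul_mod, hm1, hw1]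
    obtain ⟨t, ht⟩ : ∃ t, m * w = 2 * t + 1 := ⟨m * w / 2, by omega⟩
    have hpt : p ∣ t := by
      have e1 : ((m * w : ℕ) : ZMod p) = 1 := by push_cast; rw [mul_comm]; exact hwm
      rw [ht] at e1
      push_cast at e1
      have e2 : (2 : ZMod p) * t = 0 := by linear_combination e1
      rcases mul_eq_zero.1 e2 with h2 | h2
      · exact absurd h2 (two_ne hp2)
      · exact (ZMod.natCast_eq_zero_iff _ _).1 h2
    obtain ⟨k, hk⟩ := hpt
    have hmw : m * w = 2 * k * p + 1 := by rw [ht, hk]; ring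
    have hpk : ¬ p ∣ k := by
      rintro ⟨s, hs⟩
      apply hnd
      rw [hmw, hs]
      exact ⟨2 * s, by rw [Nat.add_sub_cancel]; ring⟩
    rw [hmw]
    apply h k _ _ hpk
    · rcases Nat.eq_zero_or_pos k with h0 | h0
      · exfalso; apply hpk; rw [h0]; exact dvd_zero p
      · exact h0
    · by_contra hc
      push Not at hc
      have h1 : m * w < 25 * p * (6 * p) := Nat.mul_lt_mul'' hm2 hw2
      have h2 : 2 * (75 * p) * p ≤ 2 * k * p :=
        Nat.mul_le_mul_right _ (Nat.mul_le_mul_left _ hc)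
      rw [hmw] at h1
      nlinarith
  -- choose the multiplier
  have hodd3 : ¬ p ∣ 2 := by
    intro h2
    have := Nat.le_of_dvd (by norm_num) h2
    have := hp.two_le
    omega
  have key1 : ∀ m : ℕ, m % 2 = 1 → ¬ p ∣ m → ∀ w d : ℕ, (d = 1 ∨ d = 2) → 1 ≤ m * w →
      p * p ∣ m * w - 1 → p * p ∣ m * (w + 2 * d * p) - 1 → False := by
    intro m hm hpm w d hd hmw h1 h2
    have h3 : m * (w + 2 * d * p) - 1 - (m * w - 1) = m * (2 * d) * p := by
      have : m * (w + 2 * d * p) = m * w + m * (2 * d) * p := by ring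
      omega
    have h4 : p * p ∣ m * (2 * d) * p := by
      rw [← h3]; exact Nat.dvd_sub h2 h1
    have h5 : p ∣ m * (2 * d) := Nat.dvd_of_mul_dvd_mul_right hp0 h4
    rcases (Nat.Prime.dvd_mul hp).1 h5 with h6 | h6
    · exact hpm h6
    · rcases (Nat.Prime.dvd_mul hp).1 h6 with h7 | h7
      · exact hodd3 h7
      · rcases hd with rfl | rfl
        · exact hp.one_lt.ne' (Nat.dvd_one.1 h7)
        · exact hodd3 h7
  have hpn : ¬ p ∣ n := fun hd => hn0 ((ZMod.natCast_eq_zero_iff _ _).2 hd)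
  have hpn' : ¬ p ∣ n' := fun hd => hn0' ((ZMod.natCast_eq_zero_iff _ _).2 hd)
  have hpos : ∀ m w : ℕ, m % 2 = 1 → w % 2 = 1 → 1 ≤ m * w := by
    intro m w hm hw
    have : 0 < m * w := Nat.mul_pos (by omega) (by omega)
    omega
  -- at most one bad multiplier for each
  obtain ⟨w, hw1, hw2, hwc, hb1, hb2⟩ : ∃ w : ℕ, w % 2 = 1 ∧ w < 6 * p ∧
      ((w : ℕ) : ZMod p) = (n : ZMod p)⁻¹ ∧ ¬ (p * p ∣ n * w - 1) ∧ ¬ (p * p ∣ n' * w - 1) := by
    have c1 : ((w0 + 2 * 1 * p : ℕ) : ZMod p) = (n : ZMod p)⁻¹ := by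
      push_cast; rw [hw0c]; simp
    have c2 : ((w0 + 2 * 2 * p : ℕ) : ZMod p) = (n : ZMod p)⁻¹ := by
      push_cast; rw [hw0c]; simp
    have e12 : w0 + 2 * 2 * p = (w0 + 2 * 1 * p) + 2 * 1 * p := by ring
    by_cases g0 : ¬ (p * p ∣ n * w0 - 1) ∧ ¬ (p * p ∣ n' * w0 - 1)
    · exact ⟨w0, hw0o, by omega, hw0c, g0.1, g0.2⟩
    by_cases g1 : ¬ (p * p ∣ n * (w0 + 2 * 1 * p) - 1) ∧ ¬ (p * p ∣ n' * (w0 + 2 * 1 * p) - 1)
    · exact ⟨w0 + 2 * 1 * p, by omega, by omega, c1, g1.1, g1.2⟩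
    by_cases g2 : ¬ (p * p ∣ n * (w0 + 2 * 2 * p) - 1) ∧ ¬ (p * p ∣ n' * (w0 + 2 * 2 * p) - 1)
    · exact ⟨w0 + 2 * 2 * p, by omega, by omega, c2, g2.1, g2.2⟩
    exfalso
    have A01 := key1 n hn hpn w0 1 (Or.inl rfl) (hpos _ _ hn hw0o)
    have A02 := key1 n hn hpn w0 2 (Or.inr rfl) (hpos _ _ hn hw0o)
    have A12 := key1 n hn hpn (w0 + 2 * 1 * p) 1 (Or.inl rfl) (hpos _ _ hn (by omega))
    have B01 := key1 n' hn' hpn' w0 1 (Or.inl rfl) (hpos _ _ hn' hw0o)
    have B02 := key1 n' hn' hpn' w0 2 (Or.inr rfl) (hpos _ _ hn' hw0o)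
    have B12 := key1 n' hn' hpn' (w0 + 2 * 1 * p) 1 (Or.inl rfl) (hpos _ _ hn' (by omega))
    rw [← e12] at A12 B12
    tauto
  have hwn : ((w : ℕ) : ZMod p) * n = 1 := by rw [hwc]; field_simp
  have hwn' : ((w : ℕ) : ZMod p) * n' = 1 := by rw [← hnn]; exact hwn
  have e1 := good w n hw1 hw2 hn hnp hwn hb1
  have e2 := good w n' hw1 hw2 hn' hnp' hwn' hb2
  rw [hf.mul _ _ (by omega) (by omega)] at e1 e2
  rw [← e2] at e1
  exact mul_right_cancel₀ (hf.ne_zero (by omega)) e1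

end

lemma exists_residue' (q : ℕ) (hq : q.Prime) (h7 : 7 ≤ q) :
    ∃ l : ℕ, l.Prime ∧ l < 2 * q ∧ l ≠ q ∧ l ≠ 2 ∧ IsSquare (l : ZMod q) := by
  haveI : Fact q.Prime := ⟨hq⟩
  have hodd : q % 2 = 1 := hq.eq_two_or_odd.resolve_left (by omega)
  have hq4 : q % 4 = 1 ∨ q % 4 = 3 := by omega
  have hq5 : ∀ l : ℕ, l.Prime → l = q → l ∣ q + 4 → False := by
    rintro l hl rfl h
    have h1 : l ∣ 4 := (Nat.dvd_add_right (dvd_refl l)).1 h
    have := Nat.le_of_dvd (by norm_num) h1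
    omega
  rcases hq4 with h4 | h4
  · have h9 : 9 ≤ q - 4 := by
      by_contra hc
      have : q = 9 := by omega
      rw [this] at hq
      norm_num at hq
    set l := (q - 4).minFac with hl
    have hlp : l.Prime := Nat.minFac_prime (by omega)
    haveI : Fact l.Prime := ⟨hlp⟩
    have hld : l ∣ q - 4 := Nat.minFac_dvd _
    have hle : l ≤ q - 4 := Nat.le_of_dvd (by omega) hld
    have hl2 : l ≠ 2 := by
      intro h2
      rw [h2] at hld
      omega
    refine ⟨l, hlp, by omega, by omega, hl2, ?_⟩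
    rw [ZMod.exists_sq_eq_prime_iff_of_mod_four_eq_one h4 hl2]
    refine ⟨2, ?_⟩
    have h5 : ((q - 4 : ℕ) : ZMod l) = 0 := (ZMod.natCast_eq_zero_iff _ _).2 hld
    rw [Nat.cast_sub (by omega)] at h5
    push_cast at h5
    linear_combination h5
  · set l := (q + 4).minFac with hl
    have hlp : l.Prime := Nat.minFac_prime (by omega)
    haveI : Fact l.Prime := ⟨hlp⟩
    have hld : l ∣ q + 4 := Nat.minFac_dvd _
    have hle : l ≤ q + 4 := Nat.le_of_dvd (by omega) hld
    have hl2 : l ≠ 2 := by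
      intro h2
      rw [h2] at hld
      omega
    have hlq : l ≠ q := fun h => hq5 l hlp h hld
    refine ⟨l, hlp, by omega, hlq, hl2, ?_⟩
    have h5 : ((q + 4 : ℕ) : ZMod l) = 0 := (ZMod.natCast_eq_zero_iff _ _).2 hld
    push_cast at h5
    have hlodd : l % 2 = 1 := hlp.eq_two_or_odd.resolve_left hl2
    have h20 : (2 : ZMod l) ≠ 0 := by
      intro h20
      have h21 : ((2 : ℕ) : ZMod l) = 0 := by exact_mod_cast h20
      rw [ZMod.natCast_eq_zero_iff] at h21
      exact hl2 ((Nat.prime_dvd_prime_iff_eq hlp Nat.prime_two).1 h21)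
    rcases (show l % 4 = 1 ∨ l % 4 = 3 by omega) with h6 | h6
    · have h7 := ZMod.exists_sq_eq_prime_iff_of_mod_four_eq_one (p := l) (q := q) h6 (by omega)
      rw [← h7]
      obtain ⟨i, hi⟩ := (ZMod.exists_sq_eq_neg_one_iff (p := l)).2 (by omega)
      refine ⟨2 * i, ?_⟩
      linear_combination h5 + 4 * hi
    · rw [ZMod.exists_sq_eq_prime_iff_of_mod_four_eq_three h4 h6 (Ne.symm hlq)]
      rintro ⟨x, hx⟩
      apply (ZMod.exists_sq_eq_neg_one_iff (p := l)).1 _ h6
      refine ⟨x / 2, ?_⟩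
      field_simp
      linear_combination hx - h5

/-- parity of the number of prime factors of `2 k p + 1` -/
theorem parity (p : ℕ) (hp : p.Prime) (hp2 : p % 2 = 1) (j : ℕ) (hj : j < 2) :
    ∃ k : ℕ, 1 ≤ k ∧ k < 75 * p ∧ ¬ p ∣ k ∧ om Set.univ (2 * k * p + 1) % 2 = j := by
  haveI : Fact p.Prime := ⟨hp⟩
  have hom : ∀ n, om Set.univ n = n.primeFactorsList.length := by
    intro n; unfold om; simp
  rcases Nat.lt_or_ge p 7 with h7 | h7
  · simp only [hom]
    have hp' : p = 3 ∨ p = 5 := by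
      have h2 := hp.two_le
      interval_cases p
      · omega
      · left; rfl
      · norm_num at hp
      · right; rfl
      · norm_num at hp
    rcases hp' with rfl | rfl <;> interval_cases j
    · exact ⟨4, by norm_num, by norm_num, by norm_num, by simp⟩
    · exact ⟨1, by norm_num, by norm_num, by norm_num, by simp⟩
    · exact ⟨2, by norm_num, by norm_num, by norm_num, by simp⟩
    · exact ⟨1, by norm_num, by norm_num, by norm_num, by simp⟩
  · by_contra hno
    push Not at hno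
    have hf := fs_CMS Set.univ
    have hC : ∀ k : ℕ, 1 ≤ k → k < 75 * p → ¬ p ∣ k →
        fs Set.univ (2 * k * p + 1) = (if j = 0 then -1 else 1) := by
      intro k h1 h2 h3
      have h4 := hno k h1 h2 h3
      have h5 : om Set.univ (2 * k * p + 1) % 2 < 2 := Nat.mod_lt _ (by norm_num)
      split_ifs with hj0
      · rcases hf.pm (2 * k * p + 1) (by omega) with h6 | h6
        · exfalso; apply h4; rw [(fs_one_iff _ _).1 h6, hj0]
        · exact h6
      · rw [fs_one_iff]; omega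
    have hper := per_of hf hp2 hC
    obtain ⟨l, hl, hl2p, hlp, hl2, hsq⟩ := exists_residue' p hp h7
    have hl0 : (l : ZMod p) ≠ 0 := by
      intro h0
      rw [ZMod.natCast_eq_zero_iff] at h0
      exact hlp ((Nat.prime_dvd_prime_iff_eq hp hl).1 h0).symm
    have hlodd : l % 2 = 1 := hl.eq_two_or_odd.resolve_left hl2
    have e1 := fF hp2 hper hlodd (by omega) hl0
    rw [FO_square hf hp2 hper (by omega) hl0 hsq, fs_one_iff, om_prime _ hl (Set.mem_univ l)] at e1
    omega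

end OddCase

end Pool.Agent.H358R3
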