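import Mathlib

/-!
A rigidity theorem for completely multiplicative functions with values `±1`, constant on a residue
class modulo a prime `q` up to `2 q ^ 2`.
-/

namespace Pool.Agent.H358R3

/-- completely multiplicative with values `±1` on the positive integers -/
structure CMS (f : ℕ → ℤ) : Prop where
  mul : ∀ m n : ℕ, m ≠ 0 → n ≠ 0 → f (m * n) = f m * f n
  pm : ∀ n : ℕ, n ≠ 0 → f n = 1 ∨ f n = -1

namespace CMS

variable {f : ℕ → ℤ}

lemma one (hf : CMS f) : f 1 = 1 := by
  have h := hf.mul 1 1 one_ne_zero one_ne_zero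
  rcases hf.pm 1 one_ne_zero with h1 | h1
  · exact h1
  · rw [h1] at h; norm_num [h1] at h

lemma sq (hf : CMS f) {n : ℕ} (hn : n ≠ 0) : f n * f n = 1 := by
  rcases hf.pm n hn with h | h <;> rw [h] <;> norm_num

lemma ne_zero (hf : CMS f) {n : ℕ} (hn : n ≠ 0) : f n ≠ 0 := by
  rcases hf.pm n hn with h | h <;> rw [h] <;> norm_num

end CMS

lemma zmod2 : ∀ x : ZMod 2, x ≠ 0 → x = 1 := by decide

section

variable {q : ℕ} [Fact q.Prime] {f : ℕ → ℤ}

/-- the function on residues -/
def FF (q : ℕ) (f : ℕ → ℤ) (g : ZMod q) : ℤ := f g.val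

/-- the stabiliser -/
def KK (q : ℕ) (f : ℕ → ℤ) (h : ZMod q) : Prop :=
  h ≠ 0 ∧ ∀ g : ZMod q, g ≠ 0 → FF q f (h * g) = FF q f h * FF q f g

lemma val_ne {g : ZMod q} (hg : g ≠ 0) : g.val ≠ 0 := by
  simpa [ZMod.val_eq_zero] using hg

lemma FF_sq (hf : CMS f) {g : ZMod q} (hg : g ≠ 0) : FF q f g * FF q f g = 1 :=
  hf.sq (val_ne hg)

lemma FF_ne (hf : CMS f) {g : ZMod q} (hg : g ≠ 0) : FF q f g ≠ 0 :=
  hf.ne_zero (val_ne hg)

lemma FF_one (hf : CMS f) : FF q f 1 = 1 := by
  unfold FF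
  rw [ZMod.val_one]
  exact hf.one

lemma KK_one (hf : CMS f) : KK q f 1 :=
  ⟨one_ne_zero, fun g _ => by rw [one_mul, FF_one hf, one_mul]⟩

lemma KK_mul {h k : ZMod q} (hh : KK q f h) (hk : KK q f k) : KK q f (h * k) := by
  refine ⟨mul_ne_zero hh.1 hk.1, fun g hg => ?_⟩
  rw [mul_assoc, hh.2 _ (mul_ne_zero hk.1 hg), hk.2 g hg, hh.2 k hk.1]
  ring

lemma KK_inv (hf : CMS f) {h : ZMod q} (hh : KK q f h) : KK q f h⁻¹ := by
  have h0 : h⁻¹ ≠ 0 := inv_ne_zero hh.1
  have e1 : FF q f h * FF q f h⁻¹ = 1 := by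
    rw [← hh.2 _ h0, mul_inv_cancel₀ hh.1, FF_one hf]
  have e2 : FF q f h⁻¹ = FF q f h := by
    have := FF_sq hf hh.1
    have h3 : FF q f h * (FF q f h⁻¹ - FF q f h) = 0 := by rw [mul_sub, e1, this, sub_self]
    rcases mul_eq_zero.1 h3 with h4 | h4
    · exact absurd h4 (FF_ne hf hh.1)
    · linarith
  refine ⟨h0, fun g hg => ?_⟩
  have e3 := hh.2 (h⁻¹ * g) (mul_ne_zero h0 hg)
  rw [← mul_assoc, mul_inv_cancel₀ hh.1, one_mul] at e3
  rw [e2]
  calc FF q f (h⁻¹ * g) = (FF q f h * FF q f h) * FF q f (h⁻¹ * g) := by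
        rw [FF_sq hf hh.1, one_mul]
    _ = FF q f h * FF q f g := by rw [e3]; ring

/-- the hypothesis: `f` is constant on the class of `a` below `2 q ^ 2` -/
def Const (q : ℕ) (f : ℕ → ℤ) (a : ℕ) (e : ℤ) : Prop :=
  ∀ N : ℕ, 0 < N → N < 2 * q ^ 2 → (N : ZMod q) = (a : ZMod q) → f N = e

lemma per (hf : CMS f) {a : ℕ} {e : ℤ} (ha : (a : ZMod q) ≠ 0) (h : Const q f a e)
    {n : ℕ} (hn : n < 2 * q) (hqn : (n : ZMod q) ≠ 0) : f n = FF q f (n : ZMod q) := by
  have hq : q.Prime := Fact.out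
  set w : ZMod q := (a : ZMod q) / (n : ZMod q) with hw
  have hw0 : w ≠ 0 := div_ne_zero ha hqn
  have hwv : w.val ≠ 0 := val_ne hw0
  have hwl : w.val < q := ZMod.val_lt w
  have hn0 : n ≠ 0 := by rintro rfl; simp at hqn
  have hm0 : (n : ZMod q).val ≠ 0 := val_ne hqn
  have hml : (n : ZMod q).val < q := ZMod.val_lt _
  have e1 : f (n * w.val) = e := by
    apply h
    · positivity
    · have h1 : n * w.val ≤ (2 * q - 1) * (q - 1) := Nat.mul_le_mul (by omega) (by omega)
      have h2 : (2 * q - 1) * (q - 1) < 2 * q ^ 2 := by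
        obtain ⟨k, rfl⟩ : ∃ k, q = k + 1 := ⟨q - 1, by have := hq.pos; omega⟩
        have h3 : 2 * (k + 1) - 1 = 2 * k + 1 := by omega
        rw [h3, Nat.add_sub_cancel]
        nlinarith
      omega
    · push_cast
      rw [ZMod.natCast_zmod_val, hw]
      field_simp
  have e2 : f ((n : ZMod q).val * w.val) = e := by
    apply h
    · positivity
    · have h1 : (n : ZMod q).val * w.val < q * q := Nat.mul_lt_mul'' hml hwl
      nlinarith
    · push_cast
      rw [ZMod.natCast_zmod_val, ZMod.natCast_zmod_val, hw]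
      field_simp
  rw [hf.mul _ _ hn0 hwv] at e1
  rw [hf.mul _ _ hm0 hwv, ← e1] at e2
  have := mul_right_cancel₀ (hf.ne_zero hwv) e2
  unfold FF
  exact this.symm

lemma cast_ne {n : ℕ} (h0 : 0 < n) (hn : n < q) : (n : ZMod q) ≠ 0 := by
  intro h
  rw [ZMod.natCast_eq_zero_iff] at h
  exact absurd (Nat.le_of_dvd h0 h) (by omega)

lemma key (hf : CMS f) {a : ℕ} {e : ℤ} (ha : (a : ZMod q) ≠ 0) (h : Const q f a e)
    {n r : ℕ} (hn0 : 0 < n) (hn : n < q) (hr0 : 0 < r) (hr : r < q) (hnr : n * r < 2 * q)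
    {g κ : ZMod q} (hg : g ≠ 0) (hκ : KK q f κ) (hgκ : g * κ = (r : ZMod q)) :
    FF q f ((n : ZMod q) * g) = FF q f (n : ZMod q) * FF q f g := by
  have hnc : (n : ZMod q) ≠ 0 := cast_ne hn0 hn
  have hrc : (r : ZMod q) ≠ 0 := cast_ne hr0 hr
  have hnrc : ((n * r : ℕ) : ZMod q) ≠ 0 := by push_cast; exact mul_ne_zero hnc hrc
  have e1 := per hf ha h hnr hnrc
  have e2 := per hf ha h (n := n) (by omega) hnc
  have e3 := per hf ha h (n := r) (by omega) hrc
  rw [hf.mul _ _ hn0.ne' hr0.ne', e2, e3] at e1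
  push_cast at e1
  rw [← hgκ] at e1
  have e4 : FF q f ((n : ZMod q) * (g * κ)) = FF q f κ * FF q f ((n : ZMod q) * g) := by
    rw [← hκ.2 _ (mul_ne_zero hnc hg)]
    congr 1
    ring
  have e5 : FF q f (g * κ) = FF q f κ * FF q f g := by
    rw [mul_comm g κ, hκ.2 g hg]
  rw [e4, e5] at e1
  have e6 : FF q f κ * (FF q f ((n : ZMod q) * g) - FF q f (n : ZMod q) * FF q f g) = 0 := by
    linear_combination -e1
  rcases mul_eq_zero.1 e6 with h7 | h7
  · exact absurd h7 (FF_ne hf hκ.1)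
  · linarith

/-- Dirichlet approximation in the form needed. -/
lemma dir (g : ZMod q) (hg : g ≠ 0) {n : ℕ} (hn : 3 ≤ n) (hnq : n < q) :
    ∃ b r : ℕ, 0 < b ∧ b < n ∧ 0 < r ∧ n * r ≤ q ∧
      (g * (b : ZMod q) = (r : ZMod q) ∨ g * (b : ZMod q) = -(r : ZMod q)) := by
  have hq : q.Prime := Fact.out
  have hqpos : (0 : ℝ) < q := by exact_mod_cast hq.pos
  obtain ⟨j, k, hk0, hkn, hjk⟩ := Real.exists_int_int_abs_mul_sub_le ((g.val : ℝ) / q)
    (n := n - 1) (by omega)
  have hn1 : ((n - 1 : ℕ) : ℝ) + 1 = n := by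
    have : ((n - 1 : ℕ) : ℝ) = (n : ℝ) - 1 := by
      rw [Nat.cast_sub (by omega)]; norm_num
    rw [this]; ring
  rw [hn1] at hjk
  have hnpos : (0 : ℝ) < n := by positivity
  -- multiply out
  have h1 : (n : ℝ) * |(k : ℝ) * g.val - j * q| ≤ q := by
    have e : (k : ℝ) * g.val - j * q = ((k : ℝ) * (g.val / q) - j) * q := by
      field_simp
    rw [e, abs_mul, abs_of_pos hqpos]
    calc (n : ℝ) * (|(k : ℝ) * (g.val / q) - j| * q) ≤ n * ((1 / n) * q) := by
          gcongr
      _ = q := by field_simp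
  have h2 : (n : ℤ) * |k * g.val - j * q| ≤ q := by
    have : (((n : ℤ) * |k * g.val - j * q| : ℤ) : ℝ) ≤ ((q : ℤ) : ℝ) := by
      push_cast
      exact h1
    exact_mod_cast this
  obtain ⟨b, rfl⟩ : ∃ b : ℕ, k = b := ⟨k.toNat, by omega⟩
  have hb0 : 0 < b := by omega
  have hbn : b < n := by omega
  set t : ℤ := (b : ℤ) * g.val - j * q with ht
  have htc : (t : ZMod q) = g * (b : ZMod q) := by
    rw [ht]
    push_cast
    rw [ZMod.natCast_zmod_val]
    simp [mul_comm]
  have htne : (t : ZMod q) ≠ 0 := by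
    rw [htc]
    exact mul_ne_zero hg (cast_ne hb0 (by omega))
  have ht0 : t ≠ 0 := by rintro h0; rw [h0] at htne; simp at htne
  refine ⟨b, t.natAbs, hb0, hbn, by omega, ?_, ?_⟩
  · have : (n : ℤ) * (t.natAbs : ℤ) ≤ q := by rw [Int.natCast_natAbs]; exact h2
    exact_mod_cast this
  · rcases Int.natAbs_eq t with h3 | h3
    · left
      rw [← htc]
      conv_lhs => rw [h3]
      simp
    · right
      rw [← htc]
      conv_lhs => rw [h3]
      simp

/-- every residue is in the stabiliser -/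
lemma all_KK (hf : CMS f) {a : ℕ} {e : ℤ} (ha : (a : ZMod q) ≠ 0) (h : Const q f a e) :
    ∀ n : ℕ, 0 < n → n < q → KK q f (n : ZMod q) := by
  have hq : q.Prime := Fact.out
  intro n
  induction n using Nat.strong_induction_on with
  | _ n ih =>
  intro hn0 hnq
  refine ⟨cast_ne hn0 hnq, fun g hg => ?_⟩
  rcases Nat.lt_or_ge n 3 with hn3 | hn3
  · interval_cases n
    · simpa using (KK_one hf).2 g hg
    · have hgv : g.val < q := ZMod.val_lt g
      exact key hf ha h (n := 2) (r := g.val) (by norm_num) (by omega)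
        (Nat.pos_of_ne_zero (val_ne hg)) hgv (by omega) hg (KK_one hf)
        (by rw [mul_one, ZMod.natCast_zmod_val])
  · obtain ⟨b, r, hb0, hbn, hr0, hnr, hbr⟩ := dir g hg hn3 hnq
    have hrq : r < q := by nlinarith
    rcases hbr with hbr | hbr
    · exact key hf ha h hn0 hnq hr0 hrq (by omega) hg (ih b hbn hb0 (by omega)) hbr
    · -- negative case
      have hex : ∃ s : ℕ, 0 < s ∧ n * s ≤ q ∧ ∃ κ, KK q f κ ∧ g * κ = -(s : ZMod q) :=
        ⟨r, hr0, hnr, _, ih b hbn hb0 (by omega), hbr⟩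
      classical
      obtain ⟨hs0, hns, κ, hκ, hgκ⟩ := Nat.find_spec hex
      set s := Nat.find hex with hs
      have hmin : ∀ t, t < s → ¬ (0 < t ∧ n * t ≤ q ∧ ∃ κ, KK q f κ ∧ g * κ = -(t : ZMod q)) :=
        fun t ht => Nat.find_min hex ht
      obtain ⟨m, hm⟩ : ∃ m, n = m + 1 := ⟨n - 1, by omega⟩
      have hm2 : 2 ≤ m := by omega
      have hcop : Nat.Coprime s m := by
        by_contra hc
        set d := Nat.gcd s m with hd
        have hd1 : 1 < d := by
          have : 0 < d := Nat.gcd_pos_of_pos_left _ hs0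
          have h1 : d ≠ 1 := hc
          omega
        obtain ⟨t, ht⟩ : d ∣ s := Nat.gcd_dvd_left s m
        have hdm : d ≤ m := Nat.le_of_dvd (by omega) (Nat.gcd_dvd_right s m)
        have ht0 : 0 < t := by
          rcases Nat.eq_zero_or_pos t with h0 | h0
          · rw [h0] at ht; omega
          · exact h0
        have hts : t < s := by rw [ht]; nlinarith
        apply hmin t hts
        refine ⟨ht0, by nlinarith, κ * (d : ZMod q)⁻¹, KK_mul hκ (KK_inv hf
          (ih d (by omega) (by omega) (by omega))), ?_⟩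
        have hdc : (d : ZMod q) ≠ 0 := cast_ne (by omega) (by omega)
        rw [← mul_assoc, hgκ, ht]
        push_cast
        field_simp
      -- solve s * b1 = q mod m
      obtain ⟨c, hc⟩ : ∃ c : ℕ, s * c ≡ q [MOD m] := by
        obtain ⟨c, -, hc⟩ := Nat.exists_mul_mod_eq_one_of_coprime hcop (by omega)
        refine ⟨c * q, ?_⟩
        have h1 : s * c ≡ 1 [MOD m] := by
          unfold Nat.ModEq
          rw [hc, Nat.mod_eq_of_lt (by omega)]
        have := h1.mul_right q
        rw [one_mul, mul_assoc] at this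
        exact this
      set b1 := c % m with hb1
      have hb1m : b1 < m := Nat.mod_lt _ (by omega)
      have hc1 : s * b1 ≡ q [MOD m] := by
        refine Nat.ModEq.trans ?_ hc
        exact (Nat.mod_modEq c m).mul_left s
      have hb10 : 0 < b1 := by
        rcases Nat.eq_zero_or_pos b1 with h0 | h0
        · exfalso
          rw [h0, mul_zero] at hc1
          have hdv : m ∣ q := (Nat.modEq_zero_iff_dvd.1 hc1.symm)
          rcases (Nat.dvd_prime hq).1 hdv with h1 | h1 <;> omega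
        · exact h0
      have hsb : s * b1 < q := by
        have : s * b1 < s * n := Nat.mul_lt_mul_of_pos_left (by omega) hs0
        nlinarith
      obtain ⟨v, hv⟩ : m ∣ q - s * b1 := (Nat.modEq_iff_dvd' hsb.le).1 hc1
      have hv0 : 0 < v := by
        rcases Nat.eq_zero_or_pos v with h0 | h0
        · rw [h0] at hv; omega
        · exact h0
      have hmv : m * v + s * b1 = q := by omega
      have hvq : v < q := by nlinarith
      have hmc : (m : ZMod q) ≠ 0 := cast_ne (by omega) (by omega)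
      refine key hf ha h hn0 hnq hv0 hvq ?_ hg
        (KK_mul (KK_mul hκ (ih b1 (by omega) hb10 (by omega)))
          (KK_inv hf (ih m (by omega) (by omega) (by omega)))) ?_
      · rw [hm]
        nlinarith
      · have e1 : ((m * v + s * b1 : ℕ) : ZMod q) = 0 := by rw [hmv]; simp
        push_cast at e1
        have e2 : (m : ZMod q) * v = -(s : ZMod q) * b1 := by linear_combination e1
        rw [← mul_assoc, ← mul_assoc, hgκ, ← e2]
        field_simp

lemma FF_mul (hf : CMS f) {a : ℕ} {e : ℤ} (ha : (a : ZMod q) ≠ 0) (h : Const q f a e)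
    {x y : ZMod q} (hx : x ≠ 0) (hy : y ≠ 0) :
    FF q f (x * y) = FF q f x * FF q f y := by
  have h1 := all_KK hf ha h x.val (Nat.pos_of_ne_zero (val_ne hx)) (ZMod.val_lt x)
  rw [ZMod.natCast_zmod_val] at h1
  exact h1.2 y hy

/-- Rigidity: a completely multiplicative `f` with values `±1` which is constant on a residue
class modulo the prime `q` below `2 q ^ 2` is trivial or the Legendre symbol below `2 q`. -/
theorem rigid (hf : CMS f) {a : ℕ} {e : ℤ} (ha : (a : ZMod q) ≠ 0) (h : Const q f a e) :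
    (∀ n : ℕ, n < 2 * q → (n : ZMod q) ≠ 0 → f n = 1) ∨
    (∀ n : ℕ, n < 2 * q → (n : ZMod q) ≠ 0 → (f n = 1 ↔ IsSquare (n : ZMod q))) := by
  by_cases hall : ∀ g : ZMod q, g ≠ 0 → FF q f g = 1
  · left
    intro n hn hqn
    rw [per hf ha h hn hqn]
    exact hall _ hqn
  · right
    push Not at hall
    obtain ⟨g0, hg0, hF0⟩ := hall
    have hq3 : 3 ≤ q := by
      have hq : q.Prime := Fact.out
      rcases Nat.lt_or_ge q 3 with h3 | h3
      · exfalso
        have h2 : q = 2 := by have := hq.two_le; omega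
        subst h2
        have : g0 = 1 := zmod2 g0 hg0
        rw [this] at hF0
        exact hF0 (FF_one hf)
      · exact h3
    have hF0' : FF q f g0 = -1 := by
      rcases hf.pm _ (val_ne hg0) with h1 | h1
      · exact absurd h1 hF0
      · exact h1
    have hsq : ∀ x : ZMod q, x ≠ 0 → IsSquare x → FF q f x = 1 := by
      rintro x hx ⟨y, rfl⟩
      have hy : y ≠ 0 := by rintro rfl; simp at hx
      rw [FF_mul hf ha h hy hy, FF_sq hf hy]
    have hg0s : ¬ IsSquare g0 := fun hs => hF0 (hsq g0 hg0 hs)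
    intro n hn hqn
    rw [per hf ha h hn hqn]
    constructor
    · intro h1
      by_contra hns
      have h2 : IsSquare ((n : ZMod q) * g0) := by
        have hq2 : ringChar (ZMod q) ≠ 2 := by
          rw [ZMod.ringChar_zmod_n]; omega
        have e1 : quadraticChar (ZMod q) (n : ZMod q) = -1 :=
          quadraticChar_neg_one_iff_not_isSquare.2 hns
        have e2 : quadraticChar (ZMod q) g0 = -1 :=
          quadraticChar_neg_one_iff_not_isSquare.2 hg0s
        have e3 : quadraticChar (ZMod q) ((n : ZMod q) * g0) = 1 := by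
          rw [map_mul, e1, e2]; norm_num
        exact (quadraticChar_one_iff_isSquare (mul_ne_zero hqn hg0)).1 e3
      have h3 := hsq _ (mul_ne_zero hqn hg0) h2
      rw [FF_mul hf ha h hqn hg0, h1, hF0'] at h3
      norm_num at h3
    · exact hsq _ hqn

end

end Pool.Agent.H358R3
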